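import Pool.Agent.E8helper58.HM.Final
import Pool.Agent.E8helper58.HM.Tors
import Pool.Agent.E8helper89.HM.Arith
import Pool.Agent.E8helper58.HM.Defs

/-! There is a torsion-free cocompact arithmetic Fuchsian group which equals its normaliser in
`PSL(2, ℝ)` and whose spectrum does not have Poissonian pair correlation. -/

set_option autoImplicit false

open scoped MatrixGroups UpperHalfPlane
open Pool.Agent.H85R3.HS Pool.Agent.E8helper58.HM.Main

namespace Pool.Agent.Results.MP_7a2702_mp.HiddenMultH58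

theorem result : ∃ Γ : Subgroup SL(2, ℝ),
    IsClosedSurface Γ ∧
    (∀ q ∈ imagePSL Γ, IsOfFinOrder q → q = 1) ∧
    IsArithmetic Γ ∧
    Subgroup.normalizer (imagePSL Γ : Set PSL(2, ℝ)) = imagePSL Γ ∧
    ¬ PoissonianPairCorrelation fun k => area Γ * eigenvalue Γ k / (4 * Real.pi) :=
  ⟨Pool.Agent.E8helper58.HM.GamH, Pool.Agent.E8helper58.HM.closedH,
    Pool.Agent.E8helper58.HM.torsion_free, Pool.Agent.E8helper89.HM.s_ARITH,
    Pool.Agent.E8helper58.HM.normalizer_eq, Pool.Agent.E8helper58.HM.not_main⟩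

end Pool.Agent.Results.MP_7a2702_mp.HiddenMultH58
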